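import Pool.Agent.R59.DA.Stm

/-! # DA-GR: greedy transitive tournament -/

namespace R59.DA

open Classical

theorem gr : SGR := by
  intro V D S g hg hdeg j
  induction j with
  | zero =>
    intro X hX hc
    have h1 : 0 < X.card := by
      have : (0 : ℝ) < X.card := by simpa using hc
      exact_mod_cast this
    obtain ⟨x, hx⟩ := Finset.card_pos.1 h1
    refine ⟨fun _ => x, fun _ => hx, fun i j hij => ?_⟩
    exact absurd hij (by omega)
  | succ j ih =>
    intro X hX hc
    have h1 : 0 < X.card := by
      have : (0 : ℝ) < X.card := lt_of_le_of_lt (by positivity) hc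
      exact_mod_cast this
    obtain ⟨v, hv⟩ := Finset.card_pos.1 h1
    have hsub : X \ outIn D X v ⊆ S \ outIn D S v := by
      intro w hw
      rw [Finset.mem_sdiff] at hw ⊢
      refine ⟨hX hw.1, fun h => hw.2 ?_⟩
      unfold outIn at h ⊢
      exact Finset.mem_filter.2 ⟨hw.1, (Finset.mem_filter.1 h).2⟩
    have c1 := Finset.card_le_card hsub
    have c2 : (X \ outIn D X v).card + (outIn D X v).card = X.card :=
      Finset.card_sdiff_add_card_eq_card (Finset.filter_subset _ _)
    have c3 : (S \ outIn D S v).card + (outIn D S v).card = S.card :=
      Finset.card_sdiff_add_card_eq_card (Finset.filter_subset _ _)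
    have hlt := hdeg v (hX hv)
    have hbig : g * j < (outIn D X v).card := by
      have c4 : ((X \ outIn D X v).card : ℝ) ≤ (S \ outIn D S v).card := by exact_mod_cast c1
      have c5 : ((X \ outIn D X v).card : ℝ) + (outIn D X v).card = X.card := by
        exact_mod_cast c2
      have c6 : ((S \ outIn D S v).card : ℝ) + (outIn D S v).card = S.card := by
        exact_mod_cast c3
      push_cast at hc
      linarith
    obtain ⟨f, hf1, hf2⟩ := ih (outIn D X v) ((Finset.filter_subset _ _).trans hX) hbig
    have hf3 : ∀ i, f i ∈ X ∧ D v (f i) := fun i => Finset.mem_filter.1 (hf1 i)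
    refine ⟨Fin.cons v f, ?_, ?_⟩
    · intro i
      refine Fin.cases ?_ (fun i => ?_) i
      · simpa using hv
      · simpa using (hf3 i).1
    · intro i k hik
      induction i using Fin.cases with
      | zero =>
        induction k using Fin.cases with
        | zero => exact absurd hik (lt_irrefl _)
        | succ k => simpa using (hf3 k).2
      | succ i =>
        induction k using Fin.cases with
        | zero => exact absurd hik (Fin.not_lt_zero _)
        | succ k =>
          simp only [Fin.cons_succ]
          exact hf2 i k (Fin.succ_lt_succ_iff.1 hik)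

end R59.DA
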